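import Pool.Agent.R135.SEPDefs

/-!
# A graph with nine vertices and nineteen edges
-/

set_option autoImplicit false

namespace Pool.Agent.U411.SEG

/-- The edges of the graph `G0` on the vertices `0, ..., 8`: the six edges of the complete graph on
`0, 1, 2, 3`, the three edges of the triangle `4, 5, 6`, the five edges from `7` to `0, 1, 4, 5, 6`,
and the five edges from `8` to `2, 3, 4, 5, 6`. -/
def edges0 : List (Fin 9 × Fin 9) :=
  [(0, 1), (0, 2), (0, 3), (1, 2), (1, 3), (2, 3), (4, 5), (4, 6), (5, 6),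
   (0, 7), (1, 7), (4, 7), (5, 7), (6, 7), (2, 8), (3, 8), (4, 8), (5, 8), (6, 8)]

/-- The graph with the edges `edges0`. -/
def G0 : SimpleGraph (Fin 9) where
  Adj a b := (a, b) ∈ edges0 ∨ (b, a) ∈ edges0
  symm := ⟨fun _ _ h => h.symm⟩
  loopless := ⟨fun a h => by revert a; decide⟩

instance : DecidableRel G0.Adj := fun a b =>
  inferInstanceAs (Decidable ((a, b) ∈ edges0 ∨ (b, a) ∈ edges0))

/-- `g` is the `γ`-polynomial of `h` with centre `d / 2`:
`h(t) = ∑_{j ≤ d/2} g_j t^j (1 + t)^(d - 2 j)`. -/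
def IsGamma (d : ℕ) (h : PowerSeries ℤ) (g : Polynomial ℤ) : Prop :=
  g.natDegree ≤ d / 2 ∧
    h = ((∑ j ∈ Finset.range (d / 2 + 1), Polynomial.C (g.coeff j) * Polynomial.X ^ j *
      (1 + Polynomial.X) ^ (d - 2 * j) : Polynomial ℤ) : PowerSeries ℤ)

/-- The numbers `c_0, c_1, ...` with `h(t) ≡ ∑_{i ≤ j} c_i t^i (1 + t)^(d - 2 i) mod t^(j + 1)` for
`j ≤ d / 2`: `c_j = h_j - ∑_{i < j} c_i binom(d - 2 i, j - i)`. -/
noncomputable def gammaCoeff (d : ℕ) (h : PowerSeries ℤ) (j : ℕ) : ℤ :=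
  PowerSeries.coeff j h -
    ∑ i : Fin j, gammaCoeff d h i * ((d - 2 * (i : ℕ)).choose (j - i) : ℤ)
termination_by j
decreasing_by exact i.isLt

end Pool.Agent.U411.SEG
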