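import Pool.Agent.R135.SEPCell
import Pool.Agent.U411.SEG.Defs

/-!
# The dimension of the symmetric edge polytope of a connected graph
-/

set_option autoImplicit false

namespace Pool.Agent.U411.SEG

open Pool.Agent.R135.SEP

lemma mem_vectorSpan {n : ℕ} {G : SimpleGraph (Fin n)} (hG : G.Connected) (a b : Fin n) :
    toR (ev a b) ∈ vectorSpan ℝ (edgePolytope G) := by
  have h1 : ∀ {a b : Fin n}, G.Adj a b → toR (ev a b) ∈ vectorSpan ℝ (edgePolytope G) := by
    intro a b hab
    have h2 := vsub_mem_vectorSpan ℝ (mem_edge hab) (mem_edge hab.symm)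
    have h3 := Submodule.smul_mem _ (1 / 2 : ℝ) h2
    have h4 : (1 / 2 : ℝ) • (toR (ev a b) -ᵥ toR (ev b a)) = toR (ev a b) := by
      rw [toR_ev, toR_ev]
      funext c
      simp only [vsub_eq_sub, Pi.smul_apply, Pi.sub_apply, smul_eq_mul]
      ring
    rwa [h4] at h3
  have h5 : G.Reachable a b := hG.preconnected a b
  obtain ⟨w⟩ := h5
  induction w with
  | @nil u =>
    have : toR (ev u u) = (0 : Fin n → ℝ) := by rw [toR_ev, sub_self]
    rw [this]; exact Submodule.zero_mem _
  | @cons u v w huv _ ih =>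
    have h6 : toR (ev u w) = toR (ev u v) + toR (ev v w) := by
      rw [toR_ev, toR_ev, toR_ev]; abel
    rw [h6]
    exact Submodule.add_mem _ (h1 huv) ih

/-- for a connected graph `G` on `n ≥ 1` vertices the dimension of `P_G` is `n - 1` -/
lemma dim_edgePolytope {n : ℕ} (hn : 0 < n) {G : SimpleGraph (Fin n)} (hG : G.Connected) :
    Module.finrank ℝ (vectorSpan ℝ (edgePolytope G)) = n - 1 := by
  have h1 : vectorSpan ℝ (edgePolytope G) = LinearMap.ker (sumL n) := by
    apply le_antisymm
    · rw [vectorSpan_def, Submodule.span_le]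
      rintro _ ⟨x, hx, y, hy, rfl⟩
      show sm (x - y) = 0
      rw [sm_eq, rp_sub, ← sm_eq, ← sm_eq, sm_poly hx, sm_poly hy, sub_self]
    · intro x hx
      rw [mem_ker_sumL] at hx
      rw [← decomp_base ⟨0, hn⟩ x hx]
      exact Submodule.sum_mem _ (fun p _ => Submodule.smul_mem _ _ (mem_vectorSpan hG _ _))
  rw [h1, finrank_ker_sumL hn]

end Pool.Agent.U411.SEG
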