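import Pool.Agent.R135.SEPGen
import Pool.Agent.R135.SEPGeo

/-!
# Symmetric edge polytopes: lattice points of the dilates as sums of edge vectors
-/

set_option autoImplicit false

open scoped Pointwise

namespace Pool.Agent.U411.SEG

open Pool.Agent.R135.SEP

variable {n : ℕ}

/-- the sums of at most `m` vectors `e_a - e_b`, `ab` an edge -/
def ball (G : SimpleGraph (Fin n)) : ℕ → Set (Fin n → ℤ)
  | 0 => {0}
  | m + 1 => {x | x ∈ ball G m ∨ ∃ a b, G.Adj a b ∧ x - ev a b ∈ ball G m}

lemma mem_ball_succ (G : SimpleGraph (Fin n)) (m : ℕ) (x : Fin n → ℤ) :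
    x ∈ ball G (m + 1) ↔ x ∈ ball G m ∨ ∃ a b, G.Adj a b ∧ x - ev a b ∈ ball G m := Iff.rfl

lemma ball_mono_succ (G : SimpleGraph (Fin n)) (m : ℕ) : ball G m ⊆ ball G (m + 1) :=
  fun _ h => Or.inl h

lemma zero_mem_ball (G : SimpleGraph (Fin n)) (m : ℕ) : (0 : Fin n → ℤ) ∈ ball G m := by
  induction m with
  | zero => exact rfl
  | succ m ih => exact Or.inl ih

lemma nu_zero {G : SimpleGraph (Fin n)} (hG : G.Connected) : nu G 0 = 0 := by
  obtain ⟨f, hf, hf2⟩ := nu_attained hG (bal_zero (n := n))
  rw [← hf2]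
  unfold pr
  simp

lemma mem_ball_iff {G : SimpleGraph (Fin n)} (hG : G.Connected) (hn : 2 ≤ n) (m : ℕ)
    (x : Fin n → ℤ) : x ∈ ball G m ↔ bal x ∧ nu G x ≤ m := by
  induction m generalizing x with
  | zero =>
    constructor
    · rintro rfl
      exact ⟨bal_zero, by rw [nu_zero hG]; simp⟩
    · rintro ⟨hb, hm⟩
      have h1 : nu G x = 0 := le_antisymm (by exact_mod_cast hm) (nu_nonneg hG hb)
      exact nu_zero_imp hG hb h1
  | succ m ih =>
    rw [mem_ball_succ]
    constructor
    · rintro (h | ⟨a, b, hab, h⟩)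
      · obtain ⟨h1, h2⟩ := (ih x).1 h
        exact ⟨h1, by push_cast; linarith⟩
      · obtain ⟨h1, h2⟩ := (ih _).1 h
        have hb : bal x := by
          have := h1.add (bal_ev a b)
          rwa [sub_add_cancel] at this
        refine ⟨hb, ?_⟩
        obtain ⟨f, hf, hfx⟩ := nu_attained hG hb
        have h3 := le_nu hG h1 hf
        rw [pr_sub_right, pr_ev] at h3
        have h4 := hf a b hab
        push_cast
        linarith
    · rintro ⟨hb, hm⟩
      rcases lt_or_eq_of_le (nu_nonneg hG hb) with h1 | h1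
      · obtain ⟨a, b, hab, h2⟩ := peel hG hn hb h1
        right
        refine ⟨a, b, hab, (ih _).2 ⟨hb.sub (bal_ev a b), ?_⟩⟩
        push_cast at hm
        linarith
      · rw [nu_zero_imp hG hb h1.symm]
        exact Or.inl (zero_mem_ball G m)

/-- the lattice points of the dilate `m P_G` -/
lemma card_dilate {G : SimpleGraph (Fin n)} (hG : G.Connected) (hn : 2 ≤ n) (m : ℕ) :
    Nat.card {z : Fin n → ℤ // toR z ∈ (m : ℝ) • edgePolytope G} = (ball G m).ncard := by
  rw [← Nat.card_coe_set_eq]
  apply Nat.card_congr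
  apply Equiv.subtypeEquivRight
  intro z
  rw [mem_dilate hG hn z m, mem_ball_iff hG hn]

lemma ev_apply_abs (a b : Fin n) (h : a ≠ b) (i : Fin n) : |ev a b i| ≤ 1 := by
  unfold ev
  by_cases h1 : i = a
  · subst h1
    simp [Pi.single_apply, h]
  · by_cases h2 : i = b
    · subst h2
      simp [Pi.single_apply, h1]
    · simp [Pi.single_apply, h1, h2]

lemma ball_abs {G : SimpleGraph (Fin n)} (m : ℕ) (x : Fin n → ℤ) (hx : x ∈ ball G m)
    (i : Fin n) : |x i| ≤ m := by
  induction m generalizing x with
  | zero =>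
    have : x = 0 := hx
    subst this
    simp
  | succ m ih =>
    rcases hx with h | ⟨a, b, hab, h⟩
    · have := ih x h
      push_cast
      linarith
    · have h1 := ih _ h
      have h2 := ev_apply_abs a b hab.ne i
      have h3 : x i = (x - ev a b) i + ev a b i := by simp
      rw [h3]
      have := abs_add_le ((x - ev a b) i) (ev a b i)
      push_cast
      linarith

lemma ball_bal {G : SimpleGraph (Fin n)} (m : ℕ) (x : Fin n → ℤ) (hx : x ∈ ball G m) :
    bal x := by
  induction m generalizing x with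
  | zero =>
    have : x = 0 := hx
    subst this
    exact bal_zero
  | succ m ih =>
    rcases hx with h | ⟨a, b, hab, h⟩
    · exact ih x h
    · have := (ih _ h).add (bal_ev a b)
      rwa [sub_add_cancel] at this

lemma ev_comp (σ : Equiv.Perm (Fin n)) (a b : Fin n) :
    ev (σ a) (σ b) ∘ σ = ev a b := by
  funext i
  simp [ev, Pi.single_apply]

lemma ball_perm (σ : Equiv.Perm (Fin n)) {G H : SimpleGraph (Fin n)}
    (h : ∀ a b, H.Adj (σ a) (σ b) ↔ G.Adj a b) (m : ℕ) (x : Fin n → ℤ) :
    x ∈ ball H m ↔ x ∘ σ ∈ ball G m := by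
  induction m generalizing x with
  | zero =>
    constructor
    · intro hx
      have : x = 0 := hx
      subst this
      rfl
    · intro hx
      have h1 : x ∘ σ = 0 := hx
      have : x = 0 := by
        funext i
        have := congrFun h1 (σ.symm i)
        simpa using this
      exact this
  | succ m ih =>
    rw [mem_ball_succ, mem_ball_succ]
    constructor
    · rintro (h1 | ⟨a, b, hab, h1⟩)
      · exact Or.inl ((ih x).1 h1)
      · right
        refine ⟨σ.symm a, σ.symm b, ?_, ?_⟩
        · rw [← h]; simpa using hab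
        · have h2 := (ih _).1 h1
          have h3 : (x - ev a b) ∘ σ = x ∘ σ - ev (σ.symm a) (σ.symm b) := by
            rw [← ev_comp σ (σ.symm a) (σ.symm b)]
            simp only [Equiv.apply_symm_apply]
            rfl
          rwa [h3] at h2
    · rintro (h1 | ⟨a, b, hab, h1⟩)
      · exact Or.inl ((ih x).2 h1)
      · right
        refine ⟨σ a, σ b, (h a b).2 hab, (ih _).2 ?_⟩
        have h3 : (x - ev (σ a) (σ b)) ∘ σ = x ∘ σ - ev a b := by
          rw [← ev_comp σ a b]
          rfl
        rwa [h3]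

lemma ball_perm_ncard (σ : Equiv.Perm (Fin n)) {G H : SimpleGraph (Fin n)}
    (h : ∀ a b, H.Adj (σ a) (σ b) ↔ G.Adj a b) (m : ℕ) :
    (ball H m).ncard = (ball G m).ncard := by
  have h1 : ball G m = (fun x : Fin n → ℤ => x ∘ σ) '' ball H m := by
    ext y
    constructor
    · intro hy
      refine ⟨y ∘ σ.symm, ?_, ?_⟩
      · rw [ball_perm σ h]
        have : (y ∘ σ.symm) ∘ σ = y := by
          funext i; simp
        rwa [this]
      · funext i; simp
    · rintro ⟨x, hx, rfl⟩
      exact (ball_perm σ h m x).1 hx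
  rw [h1, Set.ncard_image_of_injective]
  intro x y hxy
  funext i
  have := congrFun hxy (σ.symm i)
  simpa using this

end Pool.Agent.U411.SEG
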