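import Pool.Agent.U411.SEG.Ball

/-!
# Counting lattice points with large natural numbers as bit sets
-/

set_option autoImplicit false

namespace Pool.Agent.U411.SEG

open Pool.Agent.R135.SEP

/-- `acc` together with all shifts of the bit set `S` by `± d`, `d` in the list -/
def stepN : List ℕ → ℕ → ℕ → ℕ
  | [], _, acc => acc
  | d :: ds, S, acc => stepN ds S (Nat.lor (Nat.lor acc (Nat.shiftLeft S d)) (Nat.shiftRight S d))

lemma testBit_stepN (ds : List ℕ) (S acc c : ℕ) :
    (stepN ds S acc).testBit c = true ↔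
      acc.testBit c = true ∨ ∃ d ∈ ds, (d ≤ c ∧ S.testBit (c - d) = true) ∨
        S.testBit (c + d) = true := by
  induction ds generalizing acc with
  | nil => simp [stepN]
  | cons d ds ih =>
    have e1 : ∀ a b : ℕ, Nat.lor a b = a ||| b := fun _ _ => rfl
    have e2 : ∀ a b : ℕ, Nat.shiftLeft a b = a <<< b := fun _ _ => rfl
    have e3 : ∀ a b : ℕ, Nat.shiftRight a b = a >>> b := fun _ _ => rfl
    rw [stepN, ih, e1, e1, e2, e3, Nat.testBit_or, Nat.testBit_or, Nat.testBit_shiftLeft,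
      Nat.testBit_shiftRight]
    simp only [Bool.or_eq_true, Bool.and_eq_true, decide_eq_true_eq, List.mem_cons,
      exists_eq_or_imp, ge_iff_le]
    rw [add_comm d c]
    simp only [or_assoc]

/-- the position of the bit of a vector -/
def codeW (W : Fin 9 → ℕ) (c0 : ℕ) (x : Fin 9 → ℤ) : ℤ := c0 + ∑ i, (W i : ℤ) * x i

lemma codeW_zero (W : Fin 9 → ℕ) (c0 : ℕ) : codeW W c0 0 = c0 := by simp [codeW]

lemma codeW_sub_ev (W : Fin 9 → ℕ) (c0 : ℕ) (x : Fin 9 → ℤ) (a b : Fin 9) :
    codeW W c0 (x - ev a b) = codeW W c0 x - (W a : ℤ) + (W b : ℤ) := by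
  unfold codeW ev
  simp only [Pi.sub_apply, mul_sub, Finset.sum_sub_distrib]
  simp [Pi.single_apply]
  ring

lemma codeW_bound (W : Fin 9 → ℕ) (c0 D : ℕ) (hW : ∀ i, W i ≤ D) {G : SimpleGraph (Fin 9)}
    (m : ℕ) (x : Fin 9 → ℤ) (hx : x ∈ ball G m) : |codeW W c0 x - c0| ≤ m * D := by
  induction m generalizing x with
  | zero =>
    have : x = 0 := hx
    subst this
    rw [codeW_zero]
    simp
  | succ m ih =>
    rcases hx with h | ⟨a, b, hab, h⟩
    · have := ih x h
      push_cast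
      have : (0 : ℤ) ≤ D := Int.natCast_nonneg D
      linarith
    · have h1 := ih _ h
      rw [codeW_sub_ev] at h1
      have h2 : (W a : ℤ) ≤ D := by exact_mod_cast hW a
      have h3 : (W b : ℤ) ≤ D := by exact_mod_cast hW b
      have h4 : (0 : ℤ) ≤ W a := Int.natCast_nonneg _
      have h5 : (0 : ℤ) ≤ W b := Int.natCast_nonneg _
      rw [abs_le] at h1 ⊢
      push_cast
      constructor <;> linarith [h1.1, h1.2]

/-- the bits of `S` are the codes of the elements of `B` -/
def RepW (W : Fin 9 → ℕ) (c0 : ℕ) (S : ℕ) (B : Set (Fin 9 → ℤ)) : Prop :=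
  ∀ c : ℕ, S.testBit c = true ↔ ∃ x ∈ B, codeW W c0 x = c

/-- the distance of two natural numbers -/
def dst (a b : ℕ) : ℕ := (a - b) + (b - a)

lemma testBit_shift1 (a c : ℕ) : (Nat.shiftLeft 1 a).testBit c = true ↔ a = c := by
  have e2 : ∀ a b : ℕ, Nat.shiftLeft a b = a <<< b := fun _ _ => rfl
  rw [e2, Nat.one_shiftLeft, Nat.testBit_two_pow]
  simp

lemma rep_zero (W : Fin 9 → ℕ) (c0 : ℕ) (G : SimpleGraph (Fin 9)) :
    RepW W c0 (Nat.shiftLeft 1 c0) (ball G 0) := by
  intro c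
  rw [testBit_shift1]
  constructor
  · intro h
    refine ⟨0, rfl, ?_⟩
    rw [codeW_zero, h]
  · rintro ⟨x, hx, h⟩
    have : x = 0 := hx
    subst this
    rw [codeW_zero] at h
    exact_mod_cast h

lemma rep_step (W : Fin 9 → ℕ) (c0 D : ℕ) (hW : ∀ i, W i ≤ D) (hc0 : 4 * D ≤ c0)
    {G : SimpleGraph (Fin 9)} (E : List (Fin 9 × Fin 9))
    (hE : ∀ a b, G.Adj a b ↔ (a, b) ∈ E ∨ (b, a) ∈ E) (m : ℕ) (hm : m ≤ 4) (S : ℕ)
    (hS : RepW W c0 S (ball G m)) :
    RepW W c0 (stepN (E.map fun p => dst (W p.1) (W p.2)) S S) (ball G (m + 1)) := by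
  intro c
  rw [testBit_stepN]
  constructor
  · rintro (h | ⟨d, hd, h⟩)
    · obtain ⟨x, hx, hc⟩ := (hS c).1 h
      exact ⟨x, Or.inl hx, hc⟩
    · rw [List.mem_map] at hd
      obtain ⟨⟨a, b⟩, hab, rfl⟩ := hd
      simp only at h
      -- orient the edge
      obtain ⟨p, q, hpq, hle, hdst⟩ : ∃ p q : Fin 9, G.Adj p q ∧ W q ≤ W p ∧
          dst (W a) (W b) = W p - W q := by
        rcases le_total (W b) (W a) with h1 | h1
        · exact ⟨a, b, (hE a b).2 (Or.inl hab), h1, by unfold dst; omega⟩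
        · exact ⟨b, a, (hE b a).2 (Or.inr hab), h1, by unfold dst; omega⟩
      rw [hdst] at h
      rcases h with ⟨h1, h2⟩ | h2
      · obtain ⟨y, hy, hc⟩ := (hS _).1 h2
        refine ⟨y + ev p q, Or.inr ⟨p, q, hpq, by rwa [add_sub_cancel_right]⟩, ?_⟩
        have h3 := codeW_sub_ev W c0 (y + ev p q) p q
        rw [add_sub_cancel_right] at h3
        push_cast [h1, hle] at hc
        linarith
      · obtain ⟨y, hy, hc⟩ := (hS _).1 h2
        refine ⟨y + ev q p, Or.inr ⟨q, p, hpq.symm, by rwa [add_sub_cancel_right]⟩, ?_⟩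
        have h3 := codeW_sub_ev W c0 (y + ev q p) q p
        rw [add_sub_cancel_right] at h3
        push_cast [hle] at hc
        linarith
  · rintro ⟨x, hx | ⟨a, b, hab, hx⟩, hc⟩
    · exact Or.inl ((hS c).2 ⟨x, hx, hc⟩)
    · right
      have hr : 0 ≤ codeW W c0 (x - ev a b) := by
        have h1 := abs_le.1 (codeW_bound W c0 D hW m _ hx)
        have h2 : ((m : ℕ) : ℤ) * D ≤ 4 * D := by
          apply mul_le_mul_of_nonneg_right _ (Int.natCast_nonneg _)
          exact_mod_cast hm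
        have h3 : (4 : ℤ) * D ≤ c0 := by exact_mod_cast hc0
        linarith [h1.1]
      have h3 := codeW_sub_ev W c0 x a b
      refine ⟨dst (W a) (W b), ?_, ?_⟩
      · rw [List.mem_map]
        rcases (hE a b).1 hab with h | h
        · exact ⟨(a, b), h, rfl⟩
        · exact ⟨(b, a), h, by simp only [dst]; omega⟩
      · rcases le_total (W b) (W a) with h1 | h1
        · left
          have h5 : dst (W a) (W b) = W a - W b := by unfold dst; omega
          rw [h5]
          have h6 : ((W a - W b : ℕ) : ℤ) = (W a : ℤ) - W b := by push_cast [h1]; ring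
          have h7 : W a - W b ≤ c := by
            have : ((W a - W b : ℕ) : ℤ) ≤ c := by rw [h6]; linarith [hr]
            exact_mod_cast this
          refine ⟨h7, (hS _).2 ⟨_, hx, ?_⟩⟩
          push_cast [h7, h1]
          linarith
        · right
          have h5 : dst (W a) (W b) = W b - W a := by unfold dst; omega
          rw [h5]
          refine (hS _).2 ⟨_, hx, ?_⟩
          push_cast [h1]
          linarith

/-- the bit sets of the balls -/
def SS (ds : List ℕ) (c0 : ℕ) : ℕ → ℕ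
  | 0 => Nat.shiftLeft 1 c0
  | m + 1 => stepN ds (SS ds c0 m) (SS ds c0 m)

lemma rep_SS (W : Fin 9 → ℕ) (c0 D : ℕ) (hW : ∀ i, W i ≤ D) (hc0 : 4 * D ≤ c0)
    {G : SimpleGraph (Fin 9)} (E : List (Fin 9 × Fin 9))
    (hE : ∀ a b, G.Adj a b ↔ (a, b) ∈ E ∨ (b, a) ∈ E) (m : ℕ) (hm : m ≤ 4) :
    RepW W c0 (SS (E.map fun p => dst (W p.1) (W p.2)) c0 m) (ball G m) := by
  induction m with
  | zero => exact rep_zero W c0 G
  | succ m ih => exact rep_step W c0 D hW hc0 E hE m (by omega) _ (ih (by omega))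

end Pool.Agent.U411.SEG
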