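import Pool.Agent.U411.SEG.Defs

/-!
# The graph `G0` is 2-connected
-/

set_option autoImplicit false
set_option maxRecDepth 100000

namespace Pool.Agent.U411.SEG

open Pool.Agent.R135.SEP

lemma connected_of_parent {V : Type} (G : SimpleGraph V) (r : V) (f : V → V)
    (hf : ∀ u, f u = u ∨ G.Adj u (f u)) (k : ℕ) (hk : ∀ u, f^[k] u = r) : G.Connected := by
  have h1 : ∀ (m : ℕ) (u : V), G.Reachable u (f^[m] u) := by
    intro m
    induction m with
    | zero => intro u; exact SimpleGraph.Reachable.refl _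
    | succ m ih =>
      intro u
      rw [Function.iterate_succ_apply]
      rcases hf u with h | h
      · rw [h]; exact ih u
      · exact h.reachable.trans (ih (f u))
  haveI : Nonempty V := ⟨r⟩
  refine SimpleGraph.Connected.mk ?_
  intro u v
  have h2 := h1 k u
  have h3 := h1 k v
  rw [hk] at h2 h3
  exact h2.trans h3.symm

/-- parents in a spanning tree of `G0` without the vertex `v` -/
def par : Fin 9 → Fin 9 → Fin 9 :=
  ![![0, 1, 1, 1, 7, 7, 7, 1, 2], ![0, 1, 0, 0, 7, 7, 7, 0, 2], ![0, 0, 2, 0, 7, 7, 7, 0, 3],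
    ![0, 0, 0, 3, 7, 7, 7, 0, 2], ![0, 0, 0, 0, 4, 7, 7, 0, 2], ![0, 0, 0, 0, 7, 5, 7, 0, 2],
    ![0, 0, 0, 0, 7, 7, 6, 0, 2], ![0, 0, 0, 0, 8, 8, 8, 7, 2], ![0, 0, 0, 0, 7, 7, 7, 0, 8]]

/-- the root -/
def root : Fin 9 → Fin 9 := ![1, 0, 0, 0, 0, 0, 0, 0, 0]

lemma par_ne : ∀ v u : Fin 9, u ≠ v → par v u ≠ v := by decide

lemma par_adj : ∀ v u : Fin 9, u ≠ v → par v u = u ∨ G0.Adj u (par v u) := by decide

lemma root_ne : ∀ v : Fin 9, root v ≠ v := by decide

lemma par_root : ∀ v u : Fin 9, u ≠ v → par v (par v (par v u)) = root v := by decide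

lemma connected_induce (v : Fin 9) : (G0.induce ({v}ᶜ : Set (Fin 9))).Connected := by
  have hmem : ∀ u : Fin 9, u ∈ ({v}ᶜ : Set (Fin 9)) ↔ u ≠ v := by intro u; simp
  refine connected_of_parent _ ⟨root v, (hmem _).2 (root_ne v)⟩
    (fun u => ⟨par v u.1, (hmem _).2 (par_ne v u.1 ((hmem _).1 u.2))⟩) ?_ 3 ?_
  · intro u
    rcases par_adj v u.1 ((hmem _).1 u.2) with h | h
    · left
      exact Subtype.ext h
    · right
      exact h
  · intro u
    simp only [Function.iterate_succ, Function.iterate_zero, Function.comp_apply, id]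
    exact Subtype.ext (par_root v u.1 ((hmem _).1 u.2))

lemma connected_G0 : G0.Connected := by
  refine connected_of_parent G0 0 ![0, 0, 0, 0, 7, 7, 7, 0, 2] ?_ 3 ?_
  · decide
  · decide

lemma twoConnected_G0 : TwoConnected G0 :=
  ⟨by norm_num, connected_G0, connected_induce⟩

end Pool.Agent.U411.SEG
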