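import Pool.Agent.U411.SEG.Heavy
import Pool.Agent.U411.SEG.Defs

/-!
# The number of lattice points of `4 P` for the graph `G0`
-/

set_option autoImplicit false
set_option maxRecDepth 100000

namespace Pool.Agent.U411.SEG

theorem heavy_calc :
    pc 8 (SS (edges0.map fun p => dst (wt p.1) (wt p.2)) 21523360 4) = 33595 := by
  decide +kernel

theorem card_G0_four : (ball G0 4).ncard = 33595 := by
  have h := ncard_heavy edges0 (fun a b => Iff.rfl) 4 le_rfl (G := G0)
  have h2 := heavy_calc
  revert h h2
  generalize pc 8 (SS (edges0.map fun p => dst (wt p.1) (wt p.2)) 21523360 4) = z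
  intro h h2
  rw [h, h2]

end Pool.Agent.U411.SEG
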