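import Pool.Agent.U411.SEG.Light
import Pool.Agent.U411.SEG.Defs

/-!
# The numbers of bits for `G0` and its subgraphs
-/

set_option autoImplicit false
set_option maxRecDepth 100000

namespace Pool.Agent.U411.SEG

theorem calc_G : [lc edges0 0, lc edges0 1, lc edges0 2, lc edges0 3, lc edges0 4] =
    [1, 39, 639, 5715, 33595] := by
  decide +kernel

theorem calc_A : [lc (edges0.erase (0, 1)) 0, lc (edges0.erase (0, 1)) 1,
    lc (edges0.erase (0, 1)) 2, lc (edges0.erase (0, 1)) 3, lc (edges0.erase (0, 1)) 4] =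
    [1, 37, 581, 5063, 29319] := by
  decide +kernel

theorem calc_B : [lc (edges0.erase (0, 2)) 0, lc (edges0.erase (0, 2)) 1,
    lc (edges0.erase (0, 2)) 2, lc (edges0.erase (0, 2)) 3, lc (edges0.erase (0, 2)) 4] =
    [1, 37, 585, 5149, 30041] := by
  decide +kernel

theorem calc_C : [lc (edges0.erase (0, 7)) 0, lc (edges0.erase (0, 7)) 1,
    lc (edges0.erase (0, 7)) 2, lc (edges0.erase (0, 7)) 3, lc (edges0.erase (0, 7)) 4] =
    [1, 37, 577, 5023, 29103] := by
  decide +kernel

theorem calc_D : [lc (edges0.erase (4, 7)) 0, lc (edges0.erase (4, 7)) 1,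
    lc (edges0.erase (4, 7)) 2, lc (edges0.erase (4, 7)) 3, lc (edges0.erase (4, 7)) 4] =
    [1, 37, 583, 5129, 29935] := by
  decide +kernel

theorem calc_E : [lc (edges0.erase (4, 5)) 0, lc (edges0.erase (4, 5)) 1,
    lc (edges0.erase (4, 5)) 2, lc (edges0.erase (4, 5)) 3, lc (edges0.erase (4, 5)) 4] =
    [1, 37, 585, 5131, 29843] := by
  decide +kernel

end Pool.Agent.U411.SEG
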