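import Pool.Agent.U411.SEG.Series
import Pool.Agent.U411.SEG.Conn
import Pool.Agent.U411.SEG.CountG
import Pool.Agent.U411.SEG.CountL
import Pool.Agent.R135.SEPFinal

/-!
# The counterexample
-/

set_option autoImplicit false
set_option maxRecDepth 100000

namespace Pool.Agent.U411.SEG

open Pool.Agent.R135.SEP

lemma injOn_G0 : Set.InjOn (codeW ws 2443328) (ball G0 4) := by
  refine injOn_of edges0 (fun a b => Iff.rfl) 33595 (by norm_num) card_G0_four ?_
  have h := calc_G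
  simp only [List.cons.injEq, and_true] at h
  exact h.2.2.2.2

/-- the graph is connected and its balls have the given numbers of elements -/
structure Vals (H : SimpleGraph (Fin 9)) (a1 a2 a3 a4 : ℤ) : Prop where
  conn : H.Connected
  h0 : ((ball H 0).ncard : ℤ) = 1
  h1 : ((ball H 1).ncard : ℤ) = a1
  h2 : ((ball H 2).ncard : ℤ) = a2
  h3 : ((ball H 3).ncard : ℤ) = a3
  h4 : ((ball H 4).ncard : ℤ) = a4

lemma vals_of {H : SimpleGraph (Fin 9)} (hH : H ≤ G0) (hc : H.Connected)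
    (E : List (Fin 9 × Fin 9)) (hE : ∀ a b, H.Adj a b ↔ (a, b) ∈ E ∨ (b, a) ∈ E)
    {a1 a2 a3 a4 : ℕ} (h : [lc E 0, lc E 1, lc E 2, lc E 3, lc E 4] = [1, a1, a2, a3, a4]) :
    Vals H a1 a2 a3 a4 := by
  have hc4 : (ball G0 4).ncard < 65535 := by rw [card_G0_four]; norm_num
  simp only [List.cons.injEq, and_true] at h
  obtain ⟨e0, e1, e2, e3, e4⟩ := h
  refine ⟨hc, ?_, ?_, ?_, ?_, ?_⟩
  · rw [ncard_light hH injOn_G0 hc4 E hE 0 (by norm_num), e0]; rfl
  · rw [ncard_light hH injOn_G0 hc4 E hE 1 (by norm_num), e1]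
  · rw [ncard_light hH injOn_G0 hc4 E hE 2 (by norm_num), e2]
  · rw [ncard_light hH injOn_G0 hc4 E hE 3 (by norm_num), e3]
  · rw [ncard_light hH injOn_G0 hc4 E hE 4 (by norm_num), e4]

lemma Vals.perm {G H : SimpleGraph (Fin 9)} {a1 a2 a3 a4 : ℤ} (hG : Vals G a1 a2 a3 a4)
    (hc : H.Connected) (σ : Equiv.Perm (Fin 9)) (h : ∀ a b, H.Adj (σ a) (σ b) ↔ G.Adj a b) :
    Vals H a1 a2 a3 a4 := by
  refine ⟨hc, ?_, ?_, ?_, ?_, ?_⟩
  · rw [ball_perm_ncard σ h]; exact hG.h0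
  · rw [ball_perm_ncard σ h]; exact hG.h1
  · rw [ball_perm_ncard σ h]; exact hG.h2
  · rw [ball_perm_ncard σ h]; exact hG.h3
  · rw [ball_perm_ncard σ h]; exact hG.h4

lemma conn_del {a b : Fin 9} (h : G0.Adj a b) : (G0.deleteEdges {s(a, b)}).Connected :=
  twoConnected_G0.deleteEdges h

lemma adj_del (a b x y : Fin 9) : (G0.deleteEdges {s(a, b)}).Adj x y ↔
    G0.Adj x y ∧ ¬ ((x = a ∧ y = b) ∨ (x = b ∧ y = a)) := by
  rw [SimpleGraph.deleteEdges_adj, Set.mem_singleton_iff, Sym2.eq_iff]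

lemma le_del (a b : Fin 9) : G0.deleteEdges {s(a, b)} ≤ G0 := SimpleGraph.deleteEdges_le _

lemma vals_G : Vals G0 39 639 5715 33595 :=
  vals_of le_rfl connected_G0 edges0 (fun _ _ => Iff.rfl) calc_G

lemma vals_A : Vals (G0.deleteEdges {s(0, 1)}) 37 581 5063 29319 :=
  vals_of (le_del _ _) (conn_del (by decide)) (edges0.erase (0, 1))
    (fun a b => by rw [adj_del]; revert a b; decide) calc_A

lemma vals_B : Vals (G0.deleteEdges {s(0, 2)}) 37 585 5149 30041 :=
  vals_of (le_del _ _) (conn_del (by decide)) (edges0.erase (0, 2))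
    (fun a b => by rw [adj_del]; revert a b; decide) calc_B

lemma vals_C : Vals (G0.deleteEdges {s(0, 7)}) 37 577 5023 29103 :=
  vals_of (le_del _ _) (conn_del (by decide)) (edges0.erase (0, 7))
    (fun a b => by rw [adj_del]; revert a b; decide) calc_C

lemma vals_D : Vals (G0.deleteEdges {s(4, 7)}) 37 583 5129 29935 :=
  vals_of (le_del _ _) (conn_del (by decide)) (edges0.erase (4, 7))
    (fun a b => by rw [adj_del]; revert a b; decide) calc_D

lemma vals_E : Vals (G0.deleteEdges {s(4, 5)}) 37 585 5131 29843 :=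
  vals_of (le_del _ _) (conn_del (by decide)) (edges0.erase (4, 5))
    (fun a b => by rw [adj_del]; revert a b; decide) calc_E

/-- exchanging the two halves -/
def rho : Equiv.Perm (Fin 9) := Equiv.swap 0 2 * Equiv.swap 1 3 * Equiv.swap 7 8

lemma transfer {a b c d : Fin 9} {a1 a2 a3 a4 : ℤ}
    (h : Vals (G0.deleteEdges {s(a, b)}) a1 a2 a3 a4) (hcd : G0.Adj c d)
    (σ : Equiv.Perm (Fin 9))
    (hσ : ∀ x y, (G0.Adj (σ x) (σ y) ∧ ¬ ((σ x = c ∧ σ y = d) ∨ (σ x = d ∧ σ y = c))) ↔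
      (G0.Adj x y ∧ ¬ ((x = a ∧ y = b) ∨ (x = b ∧ y = a)))) :
    Vals (G0.deleteEdges {s(c, d)}) a1 a2 a3 a4 := by
  refine h.perm (conn_del hcd) σ (fun x y => ?_)
  rw [adj_del, adj_del]
  exact hσ x y

lemma v23 : Vals (G0.deleteEdges {s(2, 3)}) 37 581 5063 29319 :=
  transfer vals_A (by decide) rho (by decide)

lemma v03 : Vals (G0.deleteEdges {s(0, 3)}) 37 585 5149 30041 :=
  transfer vals_B (by decide) (Equiv.swap 2 3) (by decide)

lemma v12 : Vals (G0.deleteEdges {s(1, 2)}) 37 585 5149 30041 :=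
  transfer vals_B (by decide) (Equiv.swap 0 1) (by decide)

lemma v13 : Vals (G0.deleteEdges {s(1, 3)}) 37 585 5149 30041 :=
  transfer vals_B (by decide) (Equiv.swap 0 1 * Equiv.swap 2 3) (by decide)

lemma v17 : Vals (G0.deleteEdges {s(1, 7)}) 37 577 5023 29103 :=
  transfer vals_C (by decide) (Equiv.swap 0 1) (by decide)

lemma v28 : Vals (G0.deleteEdges {s(2, 8)}) 37 577 5023 29103 :=
  transfer vals_C (by decide) rho (by decide)

lemma v38 : Vals (G0.deleteEdges {s(3, 8)}) 37 577 5023 29103 :=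
  transfer vals_C (by decide) (Equiv.swap 2 3 * rho) (by decide)

lemma v57 : Vals (G0.deleteEdges {s(5, 7)}) 37 583 5129 29935 :=
  transfer vals_D (by decide) (Equiv.swap 4 5) (by decide)

lemma v67 : Vals (G0.deleteEdges {s(6, 7)}) 37 583 5129 29935 :=
  transfer vals_D (by decide) (Equiv.swap 4 6) (by decide)

lemma v48 : Vals (G0.deleteEdges {s(4, 8)}) 37 583 5129 29935 :=
  transfer vals_D (by decide) rho (by decide)

lemma v58 : Vals (G0.deleteEdges {s(5, 8)}) 37 583 5129 29935 :=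
  transfer vals_D (by decide) (rho * Equiv.swap 4 5) (by decide)

lemma v68 : Vals (G0.deleteEdges {s(6, 8)}) 37 583 5129 29935 :=
  transfer vals_D (by decide) (rho * Equiv.swap 4 6) (by decide)

lemma v46 : Vals (G0.deleteEdges {s(4, 6)}) 37 585 5131 29843 :=
  transfer vals_E (by decide) (Equiv.swap 5 6) (by decide)

lemma v56 : Vals (G0.deleteEdges {s(5, 6)}) 37 585 5131 29843 :=
  transfer vals_E (by decide) (Equiv.swap 4 6) (by decide)

/-- the fourth coefficient of the `γ`-polynomial -/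
lemma Vals.gamma {H : SimpleGraph (Fin 9)} {a1 a2 a3 a4 : ℤ} (h : Vals H a1 a2 a3 a4)
    {g : Polynomial ℤ} (hg : IsGamma 8 (hStar 8 (edgePolytope H)) g) :
    g.coeff 4 = a4 - 11 * a3 + 56 * a2 - 176 * a1 + 386 := by
  obtain ⟨c0, c1, c2, c3, c4⟩ := coeff_hStar h.conn 1 a1 a2 a3 a4 h.h0 h.h1 h.h2 h.h3 h.h4
  obtain ⟨g0, g1, g2, g3, g4⟩ := gamma_coeffs hg
  rw [c0] at g0
  rw [c1] at g1
  rw [c2] at g2
  rw [c3] at g3
  rw [c4] at g4
  linarith

end Pool.Agent.U411.SEG
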