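import Pool.Agent.U411.SEG.Bits

/-!
# Counting with an injective code
-/

set_option autoImplicit false

namespace Pool.Agent.U411.SEG

open Pool.Agent.R135.SEP

/-- the number of the ones among the bits of `x < 2 ^ (9 ^ k)` -/
def pc : ℕ → ℕ → ℕ
  | 0, x => x % 2
  | k + 1, x => bif Nat.beq x 0 then 0 else
     (List.range 9).foldl
       (fun acc i => acc + pc k (Nat.mod (Nat.shiftRight x (i * 9 ^ k)) (Nat.pow 2 (9 ^ k)))) 0

/-- the number of the ones among the first `N` bits of `x` -/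
def cnt (N x : ℕ) : ℕ := ∑ i ∈ Finset.range N, (x.testBit i).toNat

lemma sum_blocks (f : ℕ → ℕ) (M t : ℕ) :
    ∑ i ∈ Finset.range (t * M), f i =
      ∑ j ∈ Finset.range t, ∑ i ∈ Finset.range M, f (j * M + i) := by
  induction t with
  | zero => simp
  | succ t ih =>
    rw [Nat.succ_mul, Finset.sum_range_add, ih, Finset.sum_range_succ]

lemma foldl_sum (g : ℕ → ℕ) (l : List ℕ) (a : ℕ) :
    l.foldl (fun acc i => acc + g i) a = a + (l.map g).sum := by
  induction l generalizing a with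
  | nil => simp
  | cons b l ih => simp [ih, add_assoc]

lemma pc_eq (k x : ℕ) : pc k (x % 2 ^ (9 ^ k)) = cnt (9 ^ k) x := by
  induction k generalizing x with
  | zero =>
    simp only [pc, cnt, pow_zero, pow_one, Finset.range_one, Finset.sum_singleton]
    rw [Nat.mod_mod, Nat.testBit_zero]
    rcases Nat.mod_two_eq_zero_or_one x with h | h <;> simp [h]
  | succ k ih =>
    have h1 : cnt (9 ^ (k + 1)) x =
        ∑ j ∈ Finset.range 9, cnt (9 ^ k) ((x % 2 ^ (9 ^ (k + 1))) >>> (j * 9 ^ k)) := by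
      unfold cnt
      rw [pow_succ, mul_comm (9 ^ k) 9, sum_blocks]
      apply Finset.sum_congr rfl
      intro j hj
      apply Finset.sum_congr rfl
      intro i hi
      rw [Finset.mem_range] at hj hi
      rw [Nat.testBit_shiftRight, Nat.testBit_mod_two_pow]
      have h2 : j * 9 ^ k + i < 9 * 9 ^ k := by
        have : (j + 1) * 9 ^ k ≤ 9 * 9 ^ k := Nat.mul_le_mul_right _ (by omega)
        have h3 : (j + 1) * 9 ^ k = j * 9 ^ k + 9 ^ k := by ring
        omega
      simp [h2]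
    rw [h1]
    have h2 : ∀ j, cnt (9 ^ k) ((x % 2 ^ (9 ^ (k + 1))) >>> (j * 9 ^ k)) =
        pc k (Nat.mod (Nat.shiftRight (x % 2 ^ (9 ^ (k + 1))) (j * 9 ^ k)) (Nat.pow 2 (9 ^ k))) := by
      intro j
      rw [← ih]
      rfl
    rw [pc]
    set y := x % 2 ^ (9 ^ (k + 1)) with hy
    by_cases h0 : y = 0
    · have h3 : Nat.beq y 0 = true := by rw [h0]; rfl
      rw [h3, cond_true]
      symm
      apply Finset.sum_eq_zero
      intro j _
      rw [h0]
      simp [cnt]
    · have h3 : Nat.beq y 0 = false := by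
        rw [← Bool.not_eq_true, Nat.beq_eq]
        exact h0
      rw [h3, cond_false, foldl_sum, zero_add, ← List.sum_toFinset _ (List.nodup_range),
        List.toFinset_range]
      apply Finset.sum_congr rfl
      intro j _
      exact (h2 j).symm

lemma pc_eq_cnt (k x : ℕ) (hx : x < 2 ^ (9 ^ k)) : pc k x = cnt (9 ^ k) x := by
  rw [← pc_eq, Nat.mod_eq_of_lt hx]

/-- the weights of the coordinates -/
def wt : Fin 9 → ℕ := ![1, 9, 81, 729, 6561, 59049, 531441, 4782969, 0]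

lemma wt_le (i : Fin 9) : wt i ≤ 4782969 := by
  fin_cases i <;> simp [wt]

/-- the position of the bit of a vector -/
def code (x : Fin 9 → ℤ) : ℤ := codeW wt 21523360 x

lemma code_eq (x : Fin 9 → ℤ) : code x = (x 0 + 4) + 9 * ((x 1 + 4) + 9 * ((x 2 + 4) +
    9 * ((x 3 + 4) + 9 * ((x 4 + 4) + 9 * ((x 5 + 4) + 9 * ((x 6 + 4) + 9 * (x 7 + 4))))))) := by
  unfold code codeW wt
  simp [Fin.sum_univ_succ]
  ring

lemma code_range (x : Fin 9 → ℤ) (hx : ∀ i, |x i| ≤ 4) : 0 ≤ code x ∧ code x < 43046721 := by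
  rw [code_eq]
  have h0 := abs_le.1 (hx 0)
  have h1 := abs_le.1 (hx 1)
  have h2 := abs_le.1 (hx 2)
  have h3 := abs_le.1 (hx 3)
  have h4 := abs_le.1 (hx 4)
  have h5 := abs_le.1 (hx 5)
  have h6 := abs_le.1 (hx 6)
  have h7 := abs_le.1 (hx 7)
  constructor <;> linarith

lemma code_inj (x y : Fin 9 → ℤ) (hx : ∀ i, |x i| ≤ 4) (hy : ∀ i, |y i| ≤ 4) (bx : bal x)
    (bY : bal y) (h : code x = code y) : x = y := by
  rw [code_eq, code_eq] at h
  have key : ∀ u v U V : ℤ, |u| ≤ 4 → |v| ≤ 4 → (u + 4) + 9 * U = (v + 4) + 9 * V →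
      u = v ∧ U = V := by
    intro u v U V h1 h2 h3
    rw [abs_le] at h1 h2
    omega
  obtain ⟨e0, h⟩ := key _ _ _ _ (hx 0) (hy 0) h
  obtain ⟨e1, h⟩ := key _ _ _ _ (hx 1) (hy 1) h
  obtain ⟨e2, h⟩ := key _ _ _ _ (hx 2) (hy 2) h
  obtain ⟨e3, h⟩ := key _ _ _ _ (hx 3) (hy 3) h
  obtain ⟨e4, h⟩ := key _ _ _ _ (hx 4) (hy 4) h
  obtain ⟨e5, h⟩ := key _ _ _ _ (hx 5) (hy 5) h
  obtain ⟨e6, h⟩ := key _ _ _ _ (hx 6) (hy 6) h
  have e7 : x 7 = y 7 := by linarith
  have e8 : x 8 = y 8 := by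
    unfold bal at bx bY
    simp [Fin.sum_univ_succ] at bx bY
    have t0 : x 0 = y 0 := e0
    have t1 : x 1 = y 1 := e1
    have t2 : x 2 = y 2 := e2
    have t3 : x 3 = y 3 := e3
    have t4 : x 4 = y 4 := e4
    have t5 : x 5 = y 5 := e5
    have t6 : x 6 = y 6 := e6
    have s8 : x (Fin.last 8) = x 8 := rfl
    have s8' : y (Fin.last 8) = y 8 := rfl
    linarith
  funext i
  fin_cases i <;> assumption

lemma ncard_of_rep {G : SimpleGraph (Fin 9)} {m : ℕ} (hm : m ≤ 4) {S : ℕ}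
    (hS : RepW wt 21523360 S (ball G m)) (k : ℕ) (hk : 9 ^ k = 43046721) :
    (ball G m).ncard = pc k S := by
  have hab : ∀ x ∈ ball G m, ∀ i, |x i| ≤ 4 := by
    intro x hx i
    have := ball_abs m _ hx i
    have h4 : ((m : ℕ) : ℤ) ≤ 4 := by exact_mod_cast hm
    linarith
  obtain ⟨N, hN⟩ : ∃ N : ℕ, N = 9 ^ k := ⟨_, rfl⟩
  have hN2 : N = 43046721 := hN.trans hk
  have hlt : S < 2 ^ (9 ^ k) := by
    apply Nat.lt_pow_two_of_testBit
    intro c hc
    rw [← Bool.not_eq_true]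
    intro h
    obtain ⟨x, hx, hcx⟩ := (hS c).1 h
    have h1 := (code_range x (hab x hx)).2
    unfold code at h1
    rw [hcx] at h1
    rw [← hN] at hc
    omega
  rw [pc_eq_cnt k S hlt, ← hN]
  have h1 : cnt N S = ((Finset.range N).filter (fun i => S.testBit i = true)).card := by
    unfold cnt
    rw [Finset.card_filter]
    apply Finset.sum_congr rfl
    intro i _
    cases S.testBit i <;> simp
  rw [h1, ← Set.ncard_coe_finset]
  apply Set.ncard_congr (fun x _ => (code x).toNat)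
  · intro x hx
    have hr := code_range x (hab x hx)
    simp only [Finset.coe_filter, Finset.mem_range, Set.mem_ofPred_eq]
    refine ⟨?_, (hS _).2 ⟨x, hx, ?_⟩⟩
    · omega
    · unfold code at hr ⊢
      omega
  · intro x y hx hy hxy
    have hrx := code_range x (hab x hx)
    have hry := code_range y (hab y hy)
    have hxy' : (code x).toNat = (code y).toNat := hxy
    exact code_inj x y (hab x hx) (hab y hy) (ball_bal _ _ hx) (ball_bal _ _ hy) (by omega)
  · intro c hc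
    simp only [Finset.coe_filter, Finset.mem_range, Set.mem_ofPred_eq] at hc
    obtain ⟨x, hx, hcx⟩ := (hS c).1 hc.2
    exact ⟨x, hx, by unfold code; rw [hcx]; simp⟩

lemma ncard_heavy {G : SimpleGraph (Fin 9)} (E : List (Fin 9 × Fin 9))
    (hE : ∀ a b, G.Adj a b ↔ (a, b) ∈ E ∨ (b, a) ∈ E) (m : ℕ) (hm : m ≤ 4) :
    (ball G m).ncard = pc 8 (SS (E.map fun p => dst (wt p.1) (wt p.2)) 21523360 m) :=
  ncard_of_rep hm (rep_SS wt 21523360 4782969 wt_le (by norm_num) E hE m hm) 8 (by norm_num)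

end Pool.Agent.U411.SEG
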