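import Pool.Agent.U411.SEG.Bits

/-!
# Counting with a short code
-/

set_option autoImplicit false

namespace Pool.Agent.U411.SEG

open Pool.Agent.R135.SEP

/-- short weights, multiples of 16 -/
def ws : Fin 9 → ℕ := ![222384, 28400, 99568, 332192, 18704, 495920, 610832, 604400, 0]

lemma ws_le (i : Fin 9) : ws i ≤ 610832 := by
  fin_cases i <;> simp [ws]

lemma ws_dvd (i : Fin 9) : (16 : ℤ) ∣ ws i := by
  fin_cases i <;> simp [ws] <;> decide

lemma codeW_dvd (x : Fin 9 → ℤ) : (16 : ℤ) ∣ codeW ws 2443328 x := by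
  unfold codeW
  apply dvd_add
  · norm_num
  · exact Finset.dvd_sum (fun i _ => Dvd.dvd.mul_right (ws_dvd i) _)

lemma mod_count (S : ℕ) (h : ∀ c, S.testBit c = true → 16 ∣ c) :
    S % 65535 = S.bitIndices.toFinset.card % 65535 := by
  have h1 : S ≡ S.bitIndices.toFinset.card [MOD 65535] := by
    conv_lhs => rw [← Finset.sum_toFinset_bitIndices_two_pow S]
    rw [Finset.card_eq_sum_ones]
    apply Nat.ModEq.sum
    intro c hc
    rw [List.mem_toFinset, Nat.mem_bitIndices] at hc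
    obtain ⟨k, rfl⟩ := h c hc
    rw [pow_mul]
    have : 2 ^ 16 ≡ 1 [MOD 65535] := by decide
    simpa using this.pow k
  exact h1

lemma card_bits {B : Set (Fin 9 → ℤ)} {S : ℕ} (W : Fin 9 → ℕ) (c0 : ℕ) (hS : RepW W c0 S B)
    (hnn : ∀ x ∈ B, 0 ≤ codeW W c0 x) :
    S.bitIndices.toFinset.card = (codeW W c0 '' B).ncard := by
  have h1 : codeW W c0 '' B = (fun c : ℕ => (c : ℤ)) '' (S.bitIndices.toFinset : Set ℕ) := by
    ext z
    constructor
    · rintro ⟨x, hx, rfl⟩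
      refine ⟨(codeW W c0 x).toNat, ?_, ?_⟩
      · rw [List.coe_toFinset, Set.mem_ofPred_eq, Nat.mem_bitIndices, hS]
        exact ⟨x, hx, by rw [Int.toNat_of_nonneg (hnn x hx)]⟩
      · simp only
        rw [Int.toNat_of_nonneg (hnn x hx)]
    · rintro ⟨c, hc, rfl⟩
      rw [List.coe_toFinset, Set.mem_ofPred_eq, Nat.mem_bitIndices, hS] at hc
      obtain ⟨x, hx, hc⟩ := hc
      exact ⟨x, hx, hc⟩
  rw [h1, Set.ncard_image_of_injective _ (fun a b h => by exact_mod_cast h),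
    Set.ncard_coe_finset]

lemma ball_nonneg {G : SimpleGraph (Fin 9)} {m : ℕ} (hm : m ≤ 4) (x : Fin 9 → ℤ)
    (hx : x ∈ ball G m) : 0 ≤ codeW ws 2443328 x := by
  have h1 := abs_le.1 (codeW_bound ws 2443328 610832 ws_le m x hx)
  have h2 : ((m : ℕ) : ℤ) ≤ 4 := by exact_mod_cast hm
  have h3 : ((m : ℕ) : ℤ) * ((610832 : ℕ) : ℤ) ≤ 4 * ((610832 : ℕ) : ℤ) :=
    mul_le_mul_of_nonneg_right h2 (Int.natCast_nonneg _)
  push_cast at h1 h3
  linarith [h1.1]

lemma ball_finite {G : SimpleGraph (Fin 9)} (m : ℕ) : (ball G m).Finite := by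
  apply Set.Finite.subset
    (Fintype.piFinset (fun _ : Fin 9 => Finset.Icc (-(m : ℤ)) m)).finite_toSet
  intro x hx
  rw [Finset.mem_coe, Fintype.mem_piFinset]
  intro i
  rw [Finset.mem_Icc]
  exact abs_le.1 (ball_abs m x hx i)

lemma ball_mono_graph {G H : SimpleGraph (Fin 9)} (h : H ≤ G) (m : ℕ) : ball H m ⊆ ball G m := by
  induction m with
  | zero => exact subset_rfl
  | succ m ih =>
    rintro x (hx | ⟨a, b, hab, hx⟩)
    · exact Or.inl (ih hx)
    · exact Or.inr ⟨a, b, h hab, ih hx⟩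

lemma ball_mono {G : SimpleGraph (Fin 9)} {m k : ℕ} (h : m ≤ k) : ball G m ⊆ ball G k := by
  induction h with
  | refl => exact subset_rfl
  | step _ ih => exact ih.trans (ball_mono_succ G _)

/-- the number of the bits modulo 65535 -/
def lc (E : List (Fin 9 × Fin 9)) (m : ℕ) : ℕ :=
  Nat.mod (SS (E.map fun p => dst (ws p.1) (ws p.2)) 2443328 m) 65535

lemma lc_eq {G : SimpleGraph (Fin 9)} (E : List (Fin 9 × Fin 9))
    (hE : ∀ a b, G.Adj a b ↔ (a, b) ∈ E ∨ (b, a) ∈ E) (m : ℕ) (hm : m ≤ 4) :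
    lc E m = (codeW ws 2443328 '' ball G m).ncard % 65535 := by
  have hS := rep_SS ws 2443328 610832 ws_le (by norm_num) E hE m hm
  have h0 : lc E m = SS (E.map fun p => dst (ws p.1) (ws p.2)) 2443328 m % 65535 := rfl
  rw [h0, mod_count, card_bits ws 2443328 hS (fun x hx => ball_nonneg hm x hx)]
  intro c hc
  obtain ⟨x, _, hx⟩ := (hS c).1 hc
  have := codeW_dvd x
  rw [hx] at this
  exact_mod_cast this

/-- the short code is injective on the large ball -/
lemma injOn_of {G : SimpleGraph (Fin 9)} (E : List (Fin 9 × Fin 9))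
    (hE : ∀ a b, G.Adj a b ↔ (a, b) ∈ E ∨ (b, a) ∈ E) (N : ℕ) (hN : N < 65535)
    (h1 : (ball G 4).ncard = N) (h2 : lc E 4 = N) :
    Set.InjOn (codeW ws 2443328) (ball G 4) := by
  have h3 := lc_eq E hE 4 le_rfl
  have h4 : (codeW ws 2443328 '' ball G 4).ncard ≤ N := by
    rw [← h1]
    exact Set.ncard_image_le (ball_finite 4)
  have h5 : (codeW ws 2443328 '' ball G 4).ncard = N := by
    rw [h2, Nat.mod_eq_of_lt (by omega)] at h3
    exact h3.symm
  apply Set.injOn_of_ncard_image_eq _ (ball_finite 4)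
  rw [h5, h1]

lemma ncard_light {G H : SimpleGraph (Fin 9)} (hHG : H ≤ G)
    (hinj : Set.InjOn (codeW ws 2443328) (ball G 4)) (hcard : (ball G 4).ncard < 65535)
    (E : List (Fin 9 × Fin 9)) (hE : ∀ a b, H.Adj a b ↔ (a, b) ∈ E ∨ (b, a) ∈ E) (m : ℕ)
    (hm : m ≤ 4) : (ball H m).ncard = lc E m := by
  have hsub : ball H m ⊆ ball G 4 := (ball_mono_graph hHG m).trans (ball_mono hm)
  have h1 : (codeW ws 2443328 '' ball H m).ncard = (ball H m).ncard :=
    Set.ncard_image_of_injOn (hinj.mono hsub)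
  have h2 : (ball H m).ncard ≤ (ball G 4).ncard := Set.ncard_le_ncard hsub (ball_finite 4)
  rw [lc_eq E hE m hm, h1, Nat.mod_eq_of_lt (by omega)]

end Pool.Agent.U411.SEG
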