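import Pool.Agent.U411.SEG.Light
import Pool.Agent.U411.SEG.Defs

/-!
# From the numbers of lattice points to the `γ`-polynomial
-/

set_option autoImplicit false

namespace Pool.Agent.U411.SEG

open Pool.Agent.R135.SEP
open scoped Pointwise

lemma coeff_ehrhart {H : SimpleGraph (Fin 9)} (hH : H.Connected) (m : ℕ) :
    PowerSeries.coeff m (ehrhartSeries (edgePolytope H)) = ((ball H m).ncard : ℤ) := by
  unfold ehrhartSeries
  rw [PowerSeries.coeff_mk, card_dilate hH (by norm_num) m]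

lemma one_sub_pow_nine : (1 - PowerSeries.X : PowerSeries ℤ) ^ (8 + 1) =
    1 - PowerSeries.C 9 * PowerSeries.X ^ 1 + PowerSeries.C 36 * PowerSeries.X ^ 2
      - PowerSeries.C 84 * PowerSeries.X ^ 3 + PowerSeries.C 126 * PowerSeries.X ^ 4
      - PowerSeries.X ^ 5 * (PowerSeries.C 126 - PowerSeries.C 84 * PowerSeries.X
        + PowerSeries.C 36 * PowerSeries.X ^ 2 - PowerSeries.C 9 * PowerSeries.X ^ 3
        + PowerSeries.X ^ 4) := by
  have h : ∀ k : ℕ, (PowerSeries.C (k : ℤ) : PowerSeries ℤ) = (k : PowerSeries ℤ) := by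
    intro k; simp
  have h9 := h 9
  have h36 := h 36
  have h84 := h 84
  have h126 := h 126
  push_cast at h9 h36 h84 h126
  rw [h9, h36, h84, h126]
  ring

lemma coeff_hStar {H : SimpleGraph (Fin 9)} (hH : H.Connected)
    (a0 a1 a2 a3 a4 : ℤ) (h0 : ((ball H 0).ncard : ℤ) = a0) (h1 : ((ball H 1).ncard : ℤ) = a1)
    (h2 : ((ball H 2).ncard : ℤ) = a2) (h3 : ((ball H 3).ncard : ℤ) = a3)
    (h4 : ((ball H 4).ncard : ℤ) = a4) :
    PowerSeries.coeff 0 (hStar 8 (edgePolytope H)) = a0 ∧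
    PowerSeries.coeff 1 (hStar 8 (edgePolytope H)) = a1 - 9 * a0 ∧
    PowerSeries.coeff 2 (hStar 8 (edgePolytope H)) = a2 - 9 * a1 + 36 * a0 ∧
    PowerSeries.coeff 3 (hStar 8 (edgePolytope H)) = a3 - 9 * a2 + 36 * a1 - 84 * a0 ∧
    PowerSeries.coeff 4 (hStar 8 (edgePolytope H)) =
      a4 - 9 * a3 + 36 * a2 - 84 * a1 + 126 * a0 := by
  have c0 := (coeff_ehrhart hH 0).trans h0
  have c1 := (coeff_ehrhart hH 1).trans h1
  have c2 := (coeff_ehrhart hH 2).trans h2
  have c3 := (coeff_ehrhart hH 3).trans h3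
  have c4 := (coeff_ehrhart hH 4).trans h4
  unfold hStar
  rw [one_sub_pow_nine]
  generalize ehrhartSeries (edgePolytope H) = A at *
  generalize (PowerSeries.C (126 : ℤ) - PowerSeries.C 84 * PowerSeries.X
        + PowerSeries.C 36 * PowerSeries.X ^ 2 - PowerSeries.C 9 * PowerSeries.X ^ 3
        + PowerSeries.X ^ 4) = R
  have e : ∀ k, PowerSeries.coeff k ((1 - PowerSeries.C (9 : ℤ) * PowerSeries.X ^ 1 +
      PowerSeries.C 36 * PowerSeries.X ^ 2 - PowerSeries.C 84 * PowerSeries.X ^ 3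
      + PowerSeries.C 126 * PowerSeries.X ^ 4 - PowerSeries.X ^ 5 * R) * A) =
      PowerSeries.coeff k A - 9 * PowerSeries.coeff k (PowerSeries.X ^ 1 * A) +
      36 * PowerSeries.coeff k (PowerSeries.X ^ 2 * A) -
      84 * PowerSeries.coeff k (PowerSeries.X ^ 3 * A) +
      126 * PowerSeries.coeff k (PowerSeries.X ^ 4 * A) -
      PowerSeries.coeff k (PowerSeries.X ^ 5 * (R * A)) := by
    intro k
    simp only [sub_mul, add_mul, one_mul, map_sub, map_add, mul_assoc, PowerSeries.coeff_C_mul]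
  simp only [e, PowerSeries.coeff_X_pow_mul']
  simp only [c0, c1, c2, c3, c4]
  norm_num [c0, c1, c2, c3, c4]

/-- the first coefficients of `h` in terms of the `γ`-polynomial -/
lemma gamma_coeffs {h : PowerSeries ℤ} {g : Polynomial ℤ} (hg : IsGamma 8 h g) :
    PowerSeries.coeff 0 h = g.coeff 0 ∧
    PowerSeries.coeff 1 h = g.coeff 1 + 8 * g.coeff 0 ∧
    PowerSeries.coeff 2 h = g.coeff 2 + 6 * g.coeff 1 + 28 * g.coeff 0 ∧
    PowerSeries.coeff 3 h = g.coeff 3 + 4 * g.coeff 2 + 15 * g.coeff 1 + 56 * g.coeff 0 ∧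
    PowerSeries.coeff 4 h =
      g.coeff 4 + 2 * g.coeff 3 + 6 * g.coeff 2 + 20 * g.coeff 1 + 70 * g.coeff 0 := by
  obtain ⟨_, hg⟩ := hg
  rw [hg]
  simp only [Polynomial.coeff_coe]
  have h5 : (8 / 2 + 1 : ℕ) = 5 := rfl
  rw [h5]
  simp only [Finset.sum_range_succ, Finset.sum_range_zero, Polynomial.coeff_add, mul_assoc,
    Polynomial.coeff_C_mul, Polynomial.coeff_X_pow_mul', Polynomial.coeff_one_add_X_pow]
  norm_num [Nat.choose]
  refine ⟨?_, ?_, ?_, ?_⟩ <;> ring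

end Pool.Agent.U411.SEG
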