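import Pool.Agent.U411.SEG.Final

/-!
# Summation over the nineteen edges
-/

set_option autoImplicit false
set_option maxRecDepth 100000

namespace Pool.Agent.U411.SEG

open Pool.Agent.R135.SEP

/-- the number `a4 - 11 a3 + 56 a2 - 176 a1 + 386` is `36` or `38` -/
lemma edge_vals (e : Sym2 (Fin 9)) (he : e ∈ G0.edgeFinset) :
    ∃ a1 a2 a3 a4 : ℤ, Vals (G0.deleteEdges {e}) a1 a2 a3 a4 ∧
      a4 - 11 * a3 + 56 * a2 - 176 * a1 + 386 =
        (if e ∈ ({s(4, 7), s(5, 7), s(6, 7), s(4, 8), s(5, 8), s(6, 8)} : Finset (Sym2 (Fin 9)))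
          then 38 else 36) := by
  have h : G0.edgeFinset = {s(0, 1), s(0, 2), s(0, 3), s(1, 2), s(1, 3), s(2, 3), s(4, 5), s(4, 6),
      s(5, 6), s(0, 7), s(1, 7), s(4, 7), s(5, 7), s(6, 7), s(2, 8), s(3, 8), s(4, 8), s(5, 8),
      s(6, 8)} := by decide
  rw [h] at he
  simp only [Finset.mem_insert, Finset.mem_singleton] at he
  rcases he with rfl | rfl | rfl | rfl | rfl | rfl | rfl | rfl | rfl | rfl | rfl | rfl | rfl |
    rfl | rfl | rfl | rfl | rfl | rfl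
  · exact ⟨_, _, _, _, vals_A, by decide⟩
  · exact ⟨_, _, _, _, vals_B, by decide⟩
  · exact ⟨_, _, _, _, v03, by decide⟩
  · exact ⟨_, _, _, _, v12, by decide⟩
  · exact ⟨_, _, _, _, v13, by decide⟩
  · exact ⟨_, _, _, _, v23, by decide⟩
  · exact ⟨_, _, _, _, vals_E, by decide⟩
  · exact ⟨_, _, _, _, v46, by decide⟩
  · exact ⟨_, _, _, _, v56, by decide⟩
  · exact ⟨_, _, _, _, vals_C, by decide⟩
  · exact ⟨_, _, _, _, v17, by decide⟩
  · exact ⟨_, _, _, _, vals_D, by decide⟩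
  · exact ⟨_, _, _, _, v57, by decide⟩
  · exact ⟨_, _, _, _, v67, by decide⟩
  · exact ⟨_, _, _, _, v28, by decide⟩
  · exact ⟨_, _, _, _, v38, by decide⟩
  · exact ⟨_, _, _, _, v48, by decide⟩
  · exact ⟨_, _, _, _, v58, by decide⟩
  · exact ⟨_, _, _, _, v68, by decide⟩

lemma sum_const : ∑ e ∈ G0.edgeFinset, ((36 : ℤ) -
    (if e ∈ ({s(4, 7), s(5, 7), s(6, 7), s(4, 8), s(5, 8), s(6, 8)} : Finset (Sym2 (Fin 9)))
      then 38 else 36)) = -12 := by decide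

lemma sum_gamma (γ : SimpleGraph (Fin 9) → Polynomial ℤ)
    (h0 : IsGamma 8 (hStar 8 (edgePolytope G0)) (γ G0))
    (h1 : ∀ e ∈ G0.edgeSet, IsGamma 8 (hStar 8 (edgePolytope (G0.deleteEdges {e})))
      (γ (G0.deleteEdges {e}))) :
    (∑ e ∈ G0.edgeFinset, (γ G0 - γ (G0.deleteEdges {e}))).coeff 4 = -12 := by
  rw [Polynomial.finset_sum_coeff, ← sum_const]
  apply Finset.sum_congr rfl
  intro e he
  obtain ⟨a1, a2, a3, a4, hv, hs⟩ := edge_vals e he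
  rw [Polynomial.coeff_sub, hv.gamma (h1 e (SimpleGraph.mem_edgeFinset.mp he)), hs,
    vals_G.gamma h0]
  norm_num

lemma gammaCoeff_four {h : PowerSeries ℤ} {b0 b1 b2 b3 b4 : ℤ}
    (h0 : PowerSeries.coeff 0 h = b0) (h1 : PowerSeries.coeff 1 h = b1)
    (h2 : PowerSeries.coeff 2 h = b2) (h3 : PowerSeries.coeff 3 h = b3)
    (h4 : PowerSeries.coeff 4 h = b4) :
    gammaCoeff 8 h 4 = b4 - 2 * b3 + 2 * b2 - 2 * b1 + 2 * b0 := by
  have c0 : gammaCoeff 8 h 0 = b0 := by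
    rw [gammaCoeff, h0]; simp
  have c1 : gammaCoeff 8 h 1 = b1 - 8 * b0 := by
    rw [gammaCoeff, h1]
    simp [Fin.sum_univ_succ, c0]; ring
  have c2 : gammaCoeff 8 h 2 = b2 - 6 * (b1 - 8 * b0) - 28 * b0 := by
    rw [gammaCoeff, h2]
    simp [Fin.sum_univ_succ, c0, c1, Nat.choose]; ring
  have c3 : gammaCoeff 8 h 3 = b3 - 4 * (b2 - 6 * (b1 - 8 * b0) - 28 * b0)
      - 15 * (b1 - 8 * b0) - 56 * b0 := by
    rw [gammaCoeff, h3]
    simp [Fin.sum_univ_succ, c0, c1, c2, Nat.choose]; ring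
  rw [gammaCoeff, h4]
  simp [Fin.sum_univ_succ, c0, c1, c2, c3, Nat.choose]; ring

lemma Vals.gammaCoeff {H : SimpleGraph (Fin 9)} {a1 a2 a3 a4 : ℤ} (h : Vals H a1 a2 a3 a4) :
    gammaCoeff 8 (hStar 8 (edgePolytope H)) 4 = a4 - 11 * a3 + 56 * a2 - 176 * a1 + 386 := by
  obtain ⟨c0, c1, c2, c3, c4⟩ := coeff_hStar h.conn 1 a1 a2 a3 a4 h.h0 h.h1 h.h2 h.h3 h.h4
  rw [gammaCoeff_four c0 c1 c2 c3 c4]
  ring

lemma sum_gammaCoeff :
    ∑ e ∈ G0.edgeFinset, (gammaCoeff 8 (hStar 8 (edgePolytope G0)) 4 -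
      gammaCoeff 8 (hStar 8 (edgePolytope (G0.deleteEdges {e}))) 4) = -12 := by
  rw [← sum_const]
  apply Finset.sum_congr rfl
  intro e he
  obtain ⟨a1, a2, a3, a4, hv, hs⟩ := edge_vals e he
  rw [hv.gammaCoeff, hs, vals_G.gammaCoeff]
  norm_num

end Pool.Agent.U411.SEG
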